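import Pool.Agent.Helper420.QI.Pos
set_option autoImplicit false
set_option linter.unusedSectionVars false
set_option linter.unusedVariables false
open MeasureTheory Filter Topology Set
open scoped ENNReal NNReal InnerProductSpace

namespace Pool.Agent.Helper420.EV
open Pool.Agent.Helper420.QI Pool.Agent.Helper420.QI.V1 Pool.Agent.Helper420.QI.Pos

variable {α : Type*} [MeasurableSpace α] {μ : Measure α} [IsFiniteMeasure μ]
  {H : Type*} [NormedAddCommGroup H] [InnerProductSpace ℝ H] [CompleteSpace H]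
  {J : H →L[ℝ] Lp ℝ 2 μ} {q r : ℝ}

/-- L4: the integrals -/
theorem eval1 {n : ℕ} (v φ : H) (x : α) :
    (∏ i : Fin (n + 1), J ((Fin.snoc (α := fun _ => H) (fun _ : Fin n => v) φ : Fin (n + 1) → H) i) x)
      = (J v x) ^ n * J φ x := by
  rw [Fin.prod_univ_castSucc]
  simp only [Fin.snoc_castSucc, Fin.snoc_last, Finset.prod_const, Finset.card_univ, Fintype.card_fin]

theorem eval2 {n : ℕ} (hn : 1 ≤ n) (v y z : H) (i : Fin n) (x : α) :
    (∏ j : Fin (n + 1), J ((Fin.snoc (α := fun _ => H)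
      (Function.update (fun _ : Fin n => v) i y) z : Fin (n + 1) → H) j) x)
      = (J v x) ^ (n - 1) * J y x * J z x := by
  rw [Fin.prod_univ_castSucc]
  simp only [Fin.snoc_castSucc, Fin.snoc_last]
  rw [← Finset.mul_prod_erase Finset.univ _ (Finset.mem_univ i), Function.update_self]
  have h3 : ∏ j ∈ Finset.univ.erase i, J (Function.update (fun _ : Fin n => v) i y j) x =
      J v x ^ (n - 1) := by
    rw [Finset.prod_congr rfl (g := fun _ => J v x) (fun j hj => by
      rw [Function.update_of_ne (Finset.ne_of_mem_erase hj)])]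
    rw [Finset.prod_const, Finset.card_erase_of_mem (Finset.mem_univ i), Finset.card_univ,
      Fintype.card_fin]
  rw [h3]
  ring

/-- smallness of the `L^q` norm from smallness of the `L^2` norm -/
theorem NN_small (hD : Dir μ J q r) : ∀ ε > 0, ∀ R > 0, ∃ δ > 0, ∀ x : H, ‖x‖ ≤ R → ‖J x‖ ≤ δ →
    NN J q x ≤ ε := by
  intro ε hε R hR
  obtain ⟨C, hC, hs⟩ := hD.sob
  have hq := hD.two_lt
  have hr := hD.q_lt
  have hr2 : 0 < r - 2 := by linarith
  have hθ : 0 < (r - q) / (r - 2) := div_pos (by linarith) hr2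
  have hθ' : 0 ≤ (q - 2) / (r - 2) := div_nonneg (by linarith) hr2.le
  have hcont : Tendsto (fun t : ℝ => (t ^ (2 : ℝ)) ^ ((r - q) / (r - 2)) *
      ((C * R) ^ r) ^ ((q - 2) / (r - 2))) (𝓝 0) (𝓝 0) := by
    have h1 : Tendsto (fun t : ℝ => (t ^ (2 : ℝ)) ^ ((r - q) / (r - 2)) *
      ((C * R) ^ r) ^ ((q - 2) / (r - 2))) (𝓝 0) (𝓝 (((0 : ℝ) ^ (2 : ℝ)) ^ ((r - q) / (r - 2)) *
      ((C * R) ^ r) ^ ((q - 2) / (r - 2)))) := by
      apply Tendsto.mul_const
      apply Tendsto.rpow_const _ (Or.inr hθ.le)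
      exact tendsto_id.rpow_const (Or.inr (by norm_num))
    rwa [Real.zero_rpow (by norm_num), Real.zero_rpow hθ.ne', zero_mul] at h1
  have hεq : 0 < ε ^ q := Real.rpow_pos_of_pos hε q
  obtain ⟨δ, hδ, hball⟩ := Metric.eventually_nhds_iff_ball.mp (hcont.eventually (Iio_mem_nhds hεq))
  refine ⟨δ / 2, by positivity, fun x hx hJx => ?_⟩
  have h1 := interp hD hC hs x
  have h2 : (‖J x‖ ^ (2 : ℝ)) ^ ((r - q) / (r - 2)) * ((C * R) ^ r) ^ ((q - 2) / (r - 2)) < ε ^ q := by
    apply hball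
    rw [Metric.mem_ball, dist_zero_right, norm_norm]
    linarith
  have h3 : ((C * ‖x‖) ^ r) ^ ((q - 2) / (r - 2)) ≤ ((C * R) ^ r) ^ ((q - 2) / (r - 2)) := by
    apply Real.rpow_le_rpow (by positivity) _ hθ'
    apply Real.rpow_le_rpow (by positivity) _ (by linarith)
    gcongr
  have h4 : NN J q x ^ q ≤ ε ^ q := by
    refine h1.trans (le_trans ?_ h2.le)
    gcongr
  exact (Real.rpow_le_rpow_iff (NN_nonneg x) hε.le (by linarith)).mp h4

end Pool.Agent.Helper420.EV
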