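import Mathlib
set_option autoImplicit false
open MeasureTheory Filter Topology Set
open scoped ENNReal NNReal InnerProductSpace

namespace Pool.Agent.Helper420.EV

variable {α : Type*} [MeasurableSpace α] {μ : Measure α} [IsFiniteMeasure μ]

/-- TARGET: generalised Hoelder inequality for n+1 functions in L^(n+1) -/
theorem holder_gen {n : ℕ} (f : Fin (n + 1) → α → ℝ)
    (hf : ∀ i, MemLp (f i) (ENNReal.ofReal ((n : ℝ) + 1)) μ) :
    Integrable (fun x => ∏ i, f i x) μ ∧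
      |∫ x, ∏ i, f i x ∂μ| ≤ ∏ i, (eLpNorm (f i) (ENNReal.ofReal ((n : ℝ) + 1)) μ).toReal := by
  have hp : (0 : ℝ) < (n : ℝ) + 1 := by positivity
  have hq0 : ENNReal.ofReal ((n : ℝ) + 1) ≠ 0 := by
    rw [Ne, ENNReal.ofReal_eq_zero, not_le]; exact hp
  have hq1 : ENNReal.ofReal ((n : ℝ) + 1) ≠ ⊤ := ENNReal.ofReal_ne_top
  have hqr : (ENNReal.ofReal ((n : ℝ) + 1)).toReal = (n : ℝ) + 1 := ENNReal.toReal_ofReal hp.le
  have hnorm : ∀ i, eLpNorm (f i) (ENNReal.ofReal ((n : ℝ) + 1)) μ =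
      (∫⁻ x, ‖f i x‖ₑ ^ ((n : ℝ) + 1) ∂μ) ^ (1 / ((n : ℝ) + 1)) := by
    intro i
    rw [eLpNorm_eq_lintegral_rpow_enorm_toReal hq0 hq1, hqr]
  have he : ∀ x, ‖∏ i, f i x‖ₑ = ∏ i, ‖f i x‖ₑ := by
    intro x
    rw [Real.enorm_eq_ofReal_abs, Finset.abs_prod,
      ENNReal.ofReal_prod_of_nonneg (fun i _ => abs_nonneg _)]
    exact Finset.prod_congr rfl fun i _ => (Real.enorm_eq_ofReal_abs _).symm
  have key : ∫⁻ x, ‖∏ i, f i x‖ₑ ∂μ ≤ ∏ i, eLpNorm (f i) (ENNReal.ofReal ((n : ℝ) + 1)) μ := by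
    have h1 := ENNReal.lintegral_prod_norm_pow_le (μ := μ) (Finset.univ : Finset (Fin (n + 1)))
      (f := fun i x => ‖f i x‖ₑ ^ ((n : ℝ) + 1))
      (fun i _ => ((hf i).1.enorm.pow_const _))
      (p := fun _ => 1 / ((n : ℝ) + 1))
      (by
        rw [Finset.sum_const, Finset.card_univ, Fintype.card_fin, nsmul_eq_mul]
        push_cast
        field_simp)
      (fun _ _ => by positivity)
    simp only [← hnorm] at h1
    refine le_trans (le_of_eq ?_) h1
    refine lintegral_congr fun x => ?_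
    rw [he]
    refine Finset.prod_congr rfl fun i _ => ?_
    rw [← ENNReal.rpow_mul, mul_one_div_cancel hp.ne', ENNReal.rpow_one]
  have hfin : ∏ i, eLpNorm (f i) (ENNReal.ofReal ((n : ℝ) + 1)) μ ≠ ⊤ :=
    (ENNReal.prod_lt_top fun i _ => (hf i).2).ne
  have hae : AEStronglyMeasurable (fun x => ∏ i, f i x) μ :=
    Finset.aestronglyMeasurable_fun_prod _ fun i _ => (hf i).1
  refine ⟨⟨hae, ?_⟩, ?_⟩
  · exact lt_of_le_of_lt key (lt_top_iff_ne_top.2 hfin)
  · rw [← ENNReal.toReal_prod, ← Real.norm_eq_abs, ← toReal_enorm]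
    refine ENNReal.toReal_mono hfin ?_
    exact (enorm_integral_le_lintegral_enorm _).trans key

end Pool.Agent.Helper420.EV
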