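import Mathlib
set_option autoImplicit false
open MeasureTheory Filter Topology Set
open scoped ENNReal NNReal InnerProductSpace

namespace Pool.Agent.Helper420.EV

variable {α : Type*} [MeasurableSpace α] {μ : Measure α} [IsFiniteMeasure μ]
  {H : Type*} [NormedAddCommGroup H] [InnerProductSpace ℝ H] [CompleteSpace H]

theorem mlin_gen_upd (J : H →L[ℝ] Lp ℝ 2 μ) {n : ℕ} [DecidableEq (Fin (n + 1))]
    (m : Fin (n + 1) → H) (i : Fin (n + 1)) (z : H) (ω : α) :
    ∏ j, (J (Function.update m i z j) : α → ℝ) ω =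
      (J z : α → ℝ) ω * ∏ j ∈ Finset.univ \ {i}, (J (m j) : α → ℝ) ω := by
  have h : ∀ j, (J (Function.update m i z j) : α → ℝ) ω =
      Function.update (fun k => (J (m k) : α → ℝ) ω) i ((J z : α → ℝ) ω) j := fun j =>
    Function.apply_update (fun _ (h : H) => (J h : α → ℝ) ω) m i z j
  rw [Finset.prod_congr rfl fun j _ => h j, Finset.prod_update_of_mem (Finset.mem_univ i)]

/-- TARGET: the integral of the product is a continuous multilinear form -/
theorem mlin_gen (J : H →L[ℝ] Lp ℝ 2 μ) {n : ℕ} (K : ℝ) (hK : 0 ≤ K)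
    (hint : ∀ v : Fin (n + 1) → H, Integrable (fun x => ∏ i, J (v i) x) μ)
    (hh : ∀ v : Fin (n + 1) → H, |∫ x, ∏ i, J (v i) x ∂μ| ≤ ∏ i, (K * ‖v i‖)) :
    ∃ M : ContinuousMultilinearMap ℝ (fun _ : Fin (n + 1) => H) ℝ,
      ∀ v : Fin (n + 1) → H, M v = ∫ x, ∏ i, J (v i) x ∂μ := by
  let f : MultilinearMap ℝ (fun _ : Fin (n + 1) => H) ℝ :=
    { toFun := fun v => ∫ x, ∏ i, J (v i) x ∂μ
      map_update_add' := by
        intro _ m i x y
        rw [← integral_add (hint _) (hint _)]
        refine integral_congr_ae ?_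
        filter_upwards [Lp.coeFn_add (J x) (J y)] with ω hω
        rw [mlin_gen_upd, mlin_gen_upd, mlin_gen_upd, map_add, hω, Pi.add_apply]
        ring
      map_update_smul' := by
        intro _ m i c x
        rw [smul_eq_mul, ← integral_const_mul]
        refine integral_congr_ae ?_
        filter_upwards [Lp.coeFn_smul c (J x)] with ω hω
        rw [mlin_gen_upd, mlin_gen_upd, map_smul, hω, Pi.smul_apply, smul_eq_mul]
        ring }
  have hb : ∀ v : Fin (n + 1) → H, ‖f v‖ ≤ K ^ (n + 1) * ∏ i, ‖v i‖ := by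
    intro v
    have h1 := hh v
    rw [Finset.prod_mul_distrib, Finset.prod_const, Finset.card_univ, Fintype.card_fin] at h1
    exact h1
  exact ⟨f.mkContinuous (K ^ (n + 1)) hb, fun v => rfl⟩

end Pool.Agent.Helper420.EV
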