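import Mathlib
set_option autoImplicit false
open MeasureTheory Filter Topology Set
open scoped ENNReal NNReal InnerProductSpace

namespace Pool.Agent.Helper420.EV

variable {H : Type*} [NormedAddCommGroup H] [InnerProductSpace ℝ H] [CompleteSpace H]

/-- TARGET: the analytic map given by a multilinear form -/
theorem exists_T {n : ℕ} (M : ContinuousMultilinearMap ℝ (fun _ : Fin (n + 1) => H) ℝ) :
    ∃ T : H → H, (∀ v, AnalyticAt ℝ T v) ∧
      (∀ v φ, ⟪T v, φ⟫_ℝ = M (Fin.snoc (α := fun _ => H) (fun _ : Fin n => v) φ)) ∧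
      ∀ v x y, ⟪fderiv ℝ T v x, y⟫_ℝ = ∑ i : Fin n,
        M (Fin.snoc (α := fun _ => H) (Function.update (fun _ : Fin n => v) i x) y) := by
  classical
  obtain ⟨N, hN⟩ : ∃ N : ContinuousMultilinearMap ℝ (fun _ : Fin n => H) (H →L[ℝ] ℝ),
      ∀ (v : Fin n → H) (x : H), N v x = M (Fin.snoc (α := fun _ => H) v x) :=
    ⟨M.curryRight, fun v x => M.curryRight_apply v x⟩
  obtain ⟨D, hD⟩ : ∃ D : H →L[ℝ] (Fin n → H), ∀ v, D v = fun _ => v :=
    ⟨ContinuousLinearMap.pi (fun _ => ContinuousLinearMap.id ℝ H), fun v => rfl⟩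
  obtain ⟨S, hS⟩ : ∃ S : (H →L[ℝ] ℝ) →L[ℝ] H, ∀ (g : H →L[ℝ] ℝ) (x : H), ⟪S g, x⟫_ℝ = g x := by
    refine ⟨{ toFun := fun g => (InnerProductSpace.toDual ℝ H).symm g
              map_add' := fun g h => by simp
              map_smul' := fun c g => by simp
              cont := (InnerProductSpace.toDual ℝ H).symm.continuous }, fun g x => ?_⟩
    exact InnerProductSpace.toDual_symm_apply
  refine ⟨fun v => S (N (D v)), fun v => ?_, fun v φ => ?_, fun v x y => ?_⟩
  · have h1 : AnalyticAt ℝ (fun v => N (D v)) v :=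
      AnalyticAt.fun_comp (g := fun w => N w) (f := fun v => D v) (N.analyticAt (x := D v)) (D.analyticAt v)
    exact (S.analyticAt _).fun_comp h1
  · rw [hS, hN, hD]
  · have h1 : HasFDerivAt (fun v => N (D v)) ((N.linearDeriv (D v)).comp D) v :=
      (N.hasFDerivAt (D v)).comp v D.hasFDerivAt
    have h2 : HasFDerivAt (fun v => S (N (D v))) (S.comp ((N.linearDeriv (D v)).comp D)) v :=
      S.hasFDerivAt.comp v h1
    rw [h2.fderiv]
    simp only [ContinuousLinearMap.comp_apply]
    rw [hS, ContinuousMultilinearMap.linearDeriv_apply]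
    rw [sum_apply]
    refine Finset.sum_congr rfl fun i _ => ?_
    rw [hN, hD, hD]

end Pool.Agent.Helper420.EV
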