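import Mathlib
set_option autoImplicit false
open MeasureTheory Filter Topology Set
open scoped ENNReal NNReal InnerProductSpace

namespace Pool.Agent.Helper420.EV

/-- TARGET: an operator dominated by an interpolation of a compact one is compact -/
theorem compact_gen {H F G : Type*} [NormedAddCommGroup H] [NormedSpace ℝ H]
    [NormedAddCommGroup F] [NormedSpace ℝ F] [NormedAddCommGroup G] [NormedSpace ℝ G]
    [CompleteSpace G] (J : H →L[ℝ] F) (hJ : IsCompactOperator J) (K : H →L[ℝ] G)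
    (N : H → ℝ)
    (hN : ∀ ε > 0, ∀ R > 0, ∃ δ > 0, ∀ x : H, ‖x‖ ≤ R → ‖J x‖ ≤ δ → N x ≤ ε)
    (C : ℝ) (hC : 0 ≤ C) (hK : ∀ x, ‖K x‖ ≤ C * N x) : IsCompactOperator K := by
  refine (isCompactOperator_iff_isCompact_closure_image_closedBall (K : H →ₗ[ℝ] G) one_pos).mpr ?_
  show IsCompact (closure (K '' Metric.closedBall (0 : H) 1))
  have hJ1 : TotallyBounded (J '' Metric.closedBall (0 : H) 1) := by
    have h := (isCompactOperator_iff_isCompact_closure_image_closedBall
      (J : H →ₗ[ℝ] F) one_pos).mp hJ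
    exact h.totallyBounded.subset subset_closure
  rw [isCompact_iff_totallyBounded_isComplete]
  refine ⟨TotallyBounded.closure ?_, isClosed_closure.isComplete⟩
  rw [Metric.totallyBounded_iff]
  intro η hη
  have hε : 0 < η / (2 * (C + 1)) := by positivity
  obtain ⟨δ, hδ, hδN⟩ := hN (η / (2 * (C + 1))) hε 2 two_pos
  have h1 := Metric.finite_approx_of_totallyBounded hJ1 δ hδ
  rw [Set.exists_subset_image_finite_and] at h1
  obtain ⟨u, hu, hufin, hcov⟩ := h1
  refine ⟨K '' u, hufin.image _, ?_⟩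
  rintro _ ⟨x, hx, rfl⟩
  have h2 := hcov ⟨x, hx, rfl⟩
  simp only [Set.mem_iUnion] at h2
  obtain ⟨_, ⟨x', hx', rfl⟩, h3⟩ := h2
  simp only [Set.mem_iUnion]
  refine ⟨K x', ⟨x', hx', rfl⟩, ?_⟩
  have h4 : ‖J (x - x')‖ ≤ δ := by
    rw [map_sub, ← dist_eq_norm]
    exact (Metric.mem_ball.mp h3).le
  have h5 : ‖x - x'‖ ≤ 2 := by
    have a1 : ‖x‖ ≤ 1 := by simpa using hx
    have a2 : ‖x'‖ ≤ 1 := by simpa using hu hx'
    exact (norm_sub_le _ _).trans (by linarith)
  have h6 := hδN _ h5 h4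
  have h7 : ‖K (x - x')‖ ≤ C * (η / (2 * (C + 1))) :=
    (hK _).trans (mul_le_mul_of_nonneg_left h6 hC)
  have h8 : C * (η / (2 * (C + 1))) < η := by
    rw [← mul_div_assoc, div_lt_iff₀ (by positivity)]
    nlinarith
  rw [map_sub] at h7
  rw [Metric.mem_ball, dist_eq_norm]
  exact lt_of_le_of_lt h7 h8

end Pool.Agent.Helper420.EV
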