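import Mathlib
set_option autoImplicit false
open MeasureTheory Filter Topology Set
open scoped ENNReal NNReal InnerProductSpace

namespace Pool.Agent.Helper420.EV

variable {H : Type*} [NormedAddCommGroup H] [InnerProductSpace ℝ H] [CompleteSpace H]

/-- TARGET: energy is locally constant on the solutions of `T v = v` (the hypothesis `LS` is the
Lyapunov-Schmidt reduction, proved elsewhere) -/
theorem energy_gen
    (LS : ∀ (b : H →L[ℝ] H →L[ℝ] ℝ), (∀ x y, b x y = b y x) → (∀ x, 0 ≤ b x x) →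
      (∀ x, b x x = 0 → x = 0) → ∀ (Nn : H → H), AnalyticAt ℝ Nn 0 → Nn 0 = 0 →
      ∀ (K : H →L[ℝ] H), HasFDerivAt Nn K 0 → IsCompactOperator K →
      (∀ x y, b (K x) y = b x (K y)) → ∀ (Jf : H → ℝ), AnalyticAt ℝ Jf 0 →
      (∀ᶠ φ in 𝓝 (0 : H), Nn φ = φ → fderiv ℝ Jf φ = 0) →
      ∀ᶠ φ in 𝓝 (0 : H), Nn φ = φ → Jf φ = Jf 0)
    {n : ℕ} (hn : 2 ≤ n) (T : H → H) (hT : ∀ v, AnalyticAt ℝ T v)
    (hder : ∀ v y, ⟪fderiv ℝ T v y, v⟫_ℝ = n * ⟪T v, y⟫_ℝ)
    (hsym : ∀ v x y, ⟪fderiv ℝ T v x, y⟫_ℝ = ⟪x, fderiv ℝ T v y⟫_ℝ)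
    (hK : ∀ v, IsCompactOperator (fderiv ℝ T v))
    (u0 : H) (h0 : T u0 = u0) :
    ∀ᶠ v in 𝓝 u0, T v = v → ‖v‖ = ‖u0‖ := by
  have hTd : ∀ v, HasFDerivAt T (fderiv ℝ T v) v := fun v => (hT v).differentiableAt.hasFDerivAt
  have hb : ∃ b : H →L[ℝ] H →L[ℝ] ℝ, ∀ x y, b x y = ⟪x, y⟫_ℝ :=
    ⟨(isBoundedBilinearMap_inner (𝕜 := ℝ) (E := H)).toContinuousLinearMap, fun x y => rfl⟩
  obtain ⟨b, hb⟩ := hb
  have hadd : ∀ φ : H, AnalyticAt ℝ (fun φ : H => u0 + φ) φ := fun φ => analyticAt_const.add analyticAt_id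
  have haddd : ∀ φ : H, HasFDerivAt (fun φ : H => u0 + φ) (ContinuousLinearMap.id ℝ H) φ := fun φ => (hasFDerivAt_id φ).const_add u0
  have hTA : ∀ φ : H, AnalyticAt ℝ (fun φ : H => T (u0 + φ)) φ := fun φ => (hT (u0 + φ)).comp (hadd φ)
  have hTAd : ∀ φ : H, HasFDerivAt (fun φ : H => T (u0 + φ)) (fderiv ℝ T (u0 + φ)) φ := by
    intro φ
    have := (hTd (u0 + φ)).comp φ (haddd φ)
    rw [ContinuousLinearMap.comp_id] at this
    exact this
  have hin : ∀ (f g : H → H) (x : H), AnalyticAt ℝ f x → AnalyticAt ℝ g x → AnalyticAt ℝ (fun x => ⟪f x, g x⟫_ℝ) x := by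
    intro f g x hf hg
    have h1 := (b.analyticAt_bilinear (f x, g x)).comp₂ hf hg
    have h2 : (fun x => ⟪f x, g x⟫_ℝ) = fun x => b (f x) (g x) := by
      funext x; rw [hb]
    rw [h2]
    exact h1
  have hn1 : ((n : ℝ) + 1) ≠ 0 := by positivity
  have key := LS b (fun x y => by rw [hb, hb, real_inner_comm]) (fun x => by rw [hb]; exact real_inner_self_nonneg)
    (fun x hx => by rw [hb] at hx; exact inner_self_eq_zero.1 hx)
    (fun φ => T (u0 + φ) - u0) ((hTA 0).sub analyticAt_const) (by simp [h0])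
    (fderiv ℝ T u0) (by
      have := (hTAd 0).sub_const u0
      rw [add_zero] at this
      exact this) (hK u0) (fun x y => by rw [hb, hb]; exact hsym u0 x y)
    (fun φ => (1 / 2) * ⟪u0 + φ, u0 + φ⟫_ℝ - (1 / ((n : ℝ) + 1)) * ⟪T (u0 + φ), u0 + φ⟫_ℝ)
    ((analyticAt_const.mul (hin _ _ _ (hadd 0) (hadd 0))).sub (analyticAt_const.mul (hin _ _ _ (hTA 0) (hadd 0))))
    (by
      refine Filter.Eventually.of_forall ?_
      intro φ hφ
      have hv : T (u0 + φ) = u0 + φ := by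
        have : T (u0 + φ) = φ + u0 := by rw [← sub_eq_iff_eq_add]; exact hφ
        rw [this, add_comm]
      have h1 := (((haddd φ).inner ℝ (haddd φ)).const_mul (1 / 2 : ℝ)).sub
        (((hTAd φ).inner ℝ (haddd φ)).const_mul (1 / ((n : ℝ) + 1)))
      have h2 := h1.fderiv
      refine Eq.trans h2 ?_
      ext h
      have h3 := hder (u0 + φ) h
      rw [hv] at h3
      simp only [fderivInnerCLM_apply, ContinuousLinearMap.comp_apply, ContinuousLinearMap.prod_apply, _root_.sub_apply,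
        _root_.smul_apply, smul_eq_mul, ContinuousLinearMap.id_apply, _root_.zero_apply, hv, h3]
      rw [real_inner_comm h (u0 + φ)]
      field_simp
      ring)
  have htr : Tendsto (fun v : H => v - u0) (𝓝 u0) (𝓝 0) := by
    have : Continuous (fun v : H => v - u0) := by fun_prop
    have h := this.tendsto u0
    rwa [sub_self] at h
  filter_upwards [htr.eventually key] with v hv hTv
  have e1 : u0 + (v - u0) = v := by abel
  have h1 := hv (by rw [e1, hTv])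
  simp only [e1, add_zero, hTv, h0, real_inner_self_eq_norm_sq] at h1
  have hn2 : (2 : ℝ) ≤ n := by exact_mod_cast hn
  have hc : (0 : ℝ) < 1 / 2 - 1 / ((n : ℝ) + 1) := by
    rw [sub_pos, div_lt_div_iff₀ (by positivity) (by norm_num)]
    linarith
  have h2 : ‖v‖ ^ 2 = ‖u0‖ ^ 2 := by
    have h3 : (1 / 2 - 1 / ((n : ℝ) + 1)) * ‖v‖ ^ 2 = (1 / 2 - 1 / ((n : ℝ) + 1)) * ‖u0‖ ^ 2 := by
      linarith
    exact mul_left_cancel₀ hc.ne' h3
  have h4 := abs_eq_abs.2 (sq_eq_sq_iff_eq_or_eq_neg.1 h2)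
  rwa [abs_norm, abs_norm] at h4

end Pool.Agent.Helper420.EV

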