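import Pool.Agent.Helper420.EV.A
import Pool.Agent.Helper420.QI.Loja
import Pool.Agent.Helper420.QI.LS
import Pool.Agent.Helper420.EV.L1
import Pool.Agent.Helper420.EV.L2
import Pool.Agent.Helper420.EV.L3
import Pool.Agent.Helper420.EV.L5
import Pool.Agent.Helper420.EV.L6
set_option autoImplicit false
set_option linter.unusedSectionVars false
set_option linter.unusedVariables false
open MeasureTheory Filter Topology Set
open scoped ENNReal NNReal InnerProductSpace

namespace Pool.Agent.Helper420.EV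
open Pool.Agent.Helper420.QI Pool.Agent.Helper420.QI.V1 Pool.Agent.Helper420.QI.Pos

variable {α : Type*} [MeasurableSpace α] {μ : Measure α} [IsFiniteMeasure μ]
  {H : Type*} [NormedAddCommGroup H] [InnerProductSpace ℝ H] [CompleteSpace H]
  {J : H →L[ℝ] Lp ℝ 2 μ} {q r : ℝ}

/-- generalised Hoelder inequality -/
theorem holder (hD : Dir μ J q r) {n : ℕ} (hqn : q = (n : ℝ) + 1) (v : Fin (n + 1) → H) :
    Integrable (fun x => ∏ i, J (v i) x) μ ∧ |∫ x, ∏ i, J (v i) x ∂μ| ≤ ∏ i, NN J q (v i) := by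
  have h := holder_gen (μ := μ) (fun i => (J (v i) : α → ℝ)) (fun i => by
    rw [← hqn]; exact memq hD (v i))
  refine ⟨h.1, ?_⟩
  have h2 := h.2
  rw [← hqn] at h2
  exact h2

/-- the multilinear form -/
theorem mlin (hD : Dir μ J q r) {n : ℕ} (hqn : q = (n : ℝ) + 1) :
    ∃ M : ContinuousMultilinearMap ℝ (fun _ : Fin (n + 1) => H) ℝ,
      ∀ v : Fin (n + 1) → H, M v = ∫ x, ∏ i, J (v i) x ∂μ := by
  obtain ⟨K, hK0, hK⟩ := NN_le hD
  refine mlin_gen J K hK0 (fun v => (holder hD hqn v).1) (fun v => ?_)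
  refine (holder hD hqn v).2.trans ?_
  exact Finset.prod_le_prod (fun i _ => NN_nonneg _) (fun i _ => hK _)

/-- compactness -/
theorem compact_of_NN (hD : Dir μ J q r) (K : H →L[ℝ] H) (C : ℝ) (hC : 0 ≤ C)
    (hK : ∀ x, ‖K x‖ ≤ C * NN J q x) : IsCompactOperator K :=
  compact_gen J hD.comp K (fun x => NN J q x) (NN_small hD) C hC hK

/-- energy is locally constant on the solutions -/
theorem energy_even (hD : Dir μ J q r) {n : ℕ} (hn : 3 ≤ n) (hodd : Odd n) (hqn : q = (n : ℝ) + 1)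
    (T : H → H) (hT : ∀ v, AnalyticAt ℝ T v)
    (hT1 : ∀ v φ, ⟪T v, φ⟫_ℝ = ∫ x, (J v x) ^ n * J φ x ∂μ)
    (hT2 : ∀ v x y, ⟪fderiv ℝ T v x, y⟫_ℝ = n * ∫ t, (J v t) ^ (n - 1) * J x t * J y t ∂μ)
    (hK : ∀ v, IsCompactOperator (fderiv ℝ T v))
    (u0 : H) (h0 : T u0 = u0) :
    ∀ᶠ v in 𝓝 u0, T v = v → ‖v‖ = ‖u0‖ := by
  refine energy_gen ?_ (by omega : 2 ≤ n) T hT ?_ ?_ hK u0 h0
  · intro b hbs hbn hbp Nn hN hN0 K hK hKc hKs Jf hJ hcrit
    exact LS.ls_reduction (fun k f hf => Loja.loja hf) b hbs hbn hbp Nn hN hN0 K hK hKc hKs Jf hJ hcrit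
  · intro v y
    rw [hT2, hT1]
    congr 1
    congr 1
    ext t
    have : (J v t) ^ n = (J v t) ^ (n - 1) * J v t := by
      rw [← pow_succ]; congr 1; omega
    rw [this]; ring
  · intro v x y
    rw [hT2, real_inner_comm, hT2]
    congr 1
    congr 1
    ext t
    ring

/-- assembly of the analytic part -/
theorem energy_seq (hD : Dir μ J q r) {n : ℕ} (hn : 3 ≤ n) (hodd : Odd n) (hqn : q = (n : ℝ) + 1)
    (u0 : H) (h0 : ∀ φ : H, ⟪u0, φ⟫_ℝ = ∫ x, |J u0 x| ^ (q - 2) * J u0 x * J φ x ∂μ)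
    (u : ℕ → H) (hu : ∀ k, ∀ φ : H, ⟪u k, φ⟫_ℝ = ∫ x, |J (u k) x| ^ (q - 2) * J (u k) x * J φ x ∂μ)
    (hlim : Tendsto u atTop (𝓝 u0)) :
    ∀ᶠ k in atTop, ‖u k‖ = ‖u0‖ := by
  obtain ⟨M, hM⟩ := mlin hD hqn
  obtain ⟨T, hTa, hTM, hTd⟩ := exists_T M
  have hT1 : ∀ v φ, ⟪T v, φ⟫_ℝ = ∫ x, (J v x) ^ n * J φ x ∂μ := by
    intro v φ
    rw [hTM, hM]
    simp only [eval1]
  have hT2 : ∀ v x y, ⟪fderiv ℝ T v x, y⟫_ℝ = n * ∫ t, (J v t) ^ (n - 1) * J x t * J y t ∂μ := by
    intro v x y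
    rw [hTd]
    simp only [hM, eval2 (by omega : 1 ≤ n), Finset.sum_const, Finset.card_univ, Fintype.card_fin,
      nsmul_eq_mul]
  have hK : ∀ v, IsCompactOperator (fderiv ℝ T v) := by
    intro v
    obtain ⟨K0, hK00, hK0⟩ := NN_le hD
    apply compact_of_NN hD _ (n * (NN J q v ^ (n - 1) * K0))
      (mul_nonneg (Nat.cast_nonneg _) (mul_nonneg (pow_nonneg (NN_nonneg v) _) hK00))
    intro x
    -- bound the inner products
    have hb : ∀ y, |⟪fderiv ℝ T v x, y⟫_ℝ| ≤ n * (NN J q v ^ (n - 1) * K0) * NN J q x * ‖y‖ := by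
      intro y
      rw [hTd]
      refine (Finset.abs_sum_le_sum_abs _ _).trans ?_
      have hi : ∀ i : Fin n, |M (Fin.snoc (α := fun _ => H) (Function.update (fun _ : Fin n => v) i x) y)| ≤
          (NN J q v ^ (n - 1) * K0) * NN J q x * ‖y‖ := by
        intro i
        rw [hM]
        refine ((holder hD hqn _).2).trans ?_
        rw [Fin.prod_univ_castSucc]
        simp only [Fin.snoc_castSucc, Fin.snoc_last]
        rw [← Finset.mul_prod_erase Finset.univ _ (Finset.mem_univ i), Function.update_self]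
        have h3 : ∏ j ∈ Finset.univ.erase i, NN J q (Function.update (fun _ : Fin n => v) i x j) =
            NN J q v ^ (n - 1) := by
          rw [Finset.prod_congr rfl (g := fun _ => NN J q v) (fun j hj => by
            rw [Function.update_of_ne (Finset.ne_of_mem_erase hj)])]
          rw [Finset.prod_const, Finset.card_erase_of_mem (Finset.mem_univ i), Finset.card_univ,
            Fintype.card_fin]
        rw [h3]
        have h4 := hK0 y
        have h5 : (0 : ℝ) ≤ NN J q x * NN J q v ^ (n - 1) :=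
          mul_nonneg (NN_nonneg x) (pow_nonneg (NN_nonneg v) _)
        calc NN J q x * NN J q v ^ (n - 1) * NN J q y
            ≤ NN J q x * NN J q v ^ (n - 1) * (K0 * ‖y‖) := by gcongr
          _ = _ := by ring
      refine (Finset.sum_le_sum fun i _ => hi i).trans (le_of_eq ?_)
      rw [Finset.sum_const, Finset.card_univ, Fintype.card_fin, nsmul_eq_mul]
      ring
    have h6 := hb (fderiv ℝ T v x)
    rw [real_inner_self_eq_norm_sq, abs_of_nonneg (sq_nonneg _), pow_two] at h6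
    rcases (norm_nonneg (fderiv ℝ T v x)).eq_or_lt with h7 | h7
    · rw [← h7]
      exact mul_nonneg (mul_nonneg (Nat.cast_nonneg _) (mul_nonneg (pow_nonneg (NN_nonneg v) _) hK00))
        (NN_nonneg x)
    · exact le_of_mul_le_mul_right h6 h7
  have hpt : ∀ a : ℝ, |a| ^ (q - 2) * a = a ^ n := by
    intro a
    have h1 : q - 2 = ((n - 1 : ℕ) : ℝ) := by
      rw [hqn, Nat.cast_sub (by omega)]; push_cast; ring
    have h2 : Even (n - 1) := by
      obtain ⟨k, hk⟩ := hodd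
      exact ⟨k, by omega⟩
    rw [h1, Real.rpow_natCast, h2.pow_abs, ← pow_succ]
    congr 1
    omega
  have hsol : ∀ w : H, (∀ φ : H, ⟪w, φ⟫_ℝ = ∫ x, |J w x| ^ (q - 2) * J w x * J φ x ∂μ) → T w = w := by
    intro w hw
    apply ext_inner_right ℝ
    intro φ
    rw [hT1, hw φ]
    simp only [hpt]
  have h1 := energy_even hD hn hodd hqn T hTa hT1 hT2 hK u0 (hsol u0 h0)
  filter_upwards [hlim.eventually h1] with k hk
  exact hk (hsol _ (hu k))

end Pool.Agent.Helper420.EV
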