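import Pool.Agent.Helper420.EV.B
set_option autoImplicit false
set_option linter.unusedSectionVars false
set_option linter.unusedVariables false
open MeasureTheory Filter Topology Set
open scoped ENNReal NNReal InnerProductSpace

namespace Pool.Agent.Helper420.EV
open Pool.Agent.Helper420.QI Pool.Agent.Helper420.QI.V1 Pool.Agent.Helper420.QI.Pos

variable {α : Type*} [MeasurableSpace α] {μ : Measure α} [IsFiniteMeasure μ]
  {H : Type*} [NormedAddCommGroup H] [InnerProductSpace ℝ H] [CompleteSpace H]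
  {J : H →L[ℝ] Lp ℝ 2 μ} {q r : ℝ}

theorem norm_const_even (hD : Dir μ J q r) {n : ℕ} (hn : 3 ≤ n) (hodd : Odd n)
    (hqn : q = (n : ℝ) + 1) {u0 : H} (hc0 : Crit J q u0)
    (u : ℕ → H) (hcrit : ∀ n, Crit J q (u n)) (hlim : Tendsto u atTop (𝓝 u0)) :
    ∀ᶠ n in atTop, ‖u n‖ ^ 2 = ‖u0‖ ^ 2 := by
  have hq := hD.two_lt
  have hl0 : Tendsto (fun n => ‖u n‖ ^ 2) atTop (𝓝 (‖u0‖ ^ 2)) := (hlim.norm.pow 2)
  have hl0pos : 0 < ‖u0‖ ^ 2 := crit_pos hD hc0.1
  set b : ℝ := 1 / (q - 2) with hb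
  have hb0 : 0 < b := by rw [hb]; exact one_div_pos.mpr (by linarith)
  set U : ℕ → H := fun n => (‖u n‖ ^ 2) ^ b • u n with hU
  set U0 : H := (‖u0‖ ^ 2) ^ b • u0 with hU0
  have hUlim : Tendsto U atTop (𝓝 U0) := by
    apply Tendsto.smul _ hlim
    exact ((Real.continuousAt_rpow_const _ _ (Or.inl hl0pos.ne')).tendsto).comp hl0
  have hUsol : ∀ n φ, ⟪U n, φ⟫_ℝ = ∫ x, |J (U n) x| ^ (q - 2) * J (U n) x * J φ x ∂μ := by
    intro n φ
    exact scale_eq hq (crit_pos hD (hcrit n).1) (fun φ => (hcrit n).2 φ) φ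
  have hU0sol : ∀ φ, ⟪U0, φ⟫_ℝ = ∫ x, |J U0 x| ^ (q - 2) * J U0 x * J φ x ∂μ :=
    fun φ => scale_eq hq hl0pos hc0.2 φ
  have hE := energy_seq hD hn hodd hqn U0 hU0sol U hUsol hUlim
  filter_upwards [hE] with n hn
  have e1 : ‖U n‖ = (‖u n‖ ^ 2) ^ b * ‖u n‖ := by
    rw [hU, norm_smul, Real.norm_eq_abs, abs_of_nonneg (by positivity)]
  have e2 : ‖U0‖ = (‖u0‖ ^ 2) ^ b * ‖u0‖ := by
    rw [hU0, norm_smul, Real.norm_eq_abs, abs_of_nonneg (by positivity)]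
  rw [e1, e2] at hn
  have hmono : StrictMonoOn (fun t : ℝ => (t ^ 2) ^ b * t) (Ici 0) := by
    intro s hs t ht hst
    simp only
    have hs0 : (0 : ℝ) ≤ s := hs
    have h1 : (s ^ 2) ^ b ≤ (t ^ 2) ^ b := by
      apply Real.rpow_le_rpow (by positivity) _ hb0.le
      gcongr
    have ht0 : 0 < t := lt_of_le_of_lt hs0 hst
    have h2 : 0 < (t ^ 2) ^ b := by positivity
    calc (s ^ 2) ^ b * s ≤ (t ^ 2) ^ b * s := by gcongr
      _ < (t ^ 2) ^ b * t := by gcongr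
  have := hmono.injOn (norm_nonneg _ : (0 : ℝ) ≤ _) (norm_nonneg _ : (0 : ℝ) ≤ _) hn
  rw [this]

/-- local finiteness of all critical values for an even exponent -/
theorem fin_even (hD : Dir μ J q r) {n : ℕ} (hn : 3 ≤ n) (hodd : Odd n)
    (hqn : q = (n : ℝ) + 1) (M : ℝ) :
    {l : ℝ | l ≤ M ∧ ∃ u : H, Crit J q u ∧ ‖u‖ ^ 2 = l}.Finite := by
  have hq := hD.two_lt
  by_contra hinf
  have hinf' : {l : ℝ | l ≤ M ∧ ∃ u : H, Crit J q u ∧ ‖u‖ ^ 2 = l}.Infinite := hinf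
  set l : ℕ → ℝ := fun n => (hinf'.natEmbedding _ n : ℝ) with hl
  have hinj : Function.Injective l := by
    intro a b hab
    exact (hinf'.natEmbedding _).injective (Subtype.ext hab)
  have hmem : ∀ n, l n ≤ M ∧ ∃ u : H, Crit J q u ∧ ‖u‖ ^ 2 = l n :=
    fun n => (hinf'.natEmbedding _ n).2
  choose hlM u hcrit hnorm using hmem
  obtain ⟨u0, ns, hns, hlim⟩ := compact_crit hD u hcrit (fun n => (hnorm n).le.trans (hlM n))
  have hc0 : Crit J q u0 := crit_lim hD (fun n => hcrit (ns n)) hlim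
  have hev := norm_const_even hD hn hodd hqn hc0 (u ∘ ns) (fun n => hcrit (ns n)) hlim
  obtain ⟨n0, hn0⟩ := eventually_atTop.mp hev
  have h1 := hn0 n0 le_rfl
  have h2 := hn0 (n0 + 1) (by omega)
  simp only [Function.comp_apply, hnorm] at h1 h2
  have h3 := hinj (h1.trans h2.symm)
  have h4 := hns.injective h3
  omega

end Pool.Agent.Helper420.EV
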